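import Pool.Agent.Q273.V.Stm2
import Pool.Agent.Q149.V.Fin3

/-!
# Project V (helper273), job V2-FIN3H: cubic numbers near almost every real number, sharp form
(helper144; the argument is the one of job FIN3 of helper149, with the first moment of one field
of the order `T^(1+ε) / √|d|`)
-/

set_option autoImplicit false

namespace Q144.V

open Q273.V Polynomial MeasureTheory Pool.Agent.Q149.V

/-- the measure of the exceptional sets -/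
theorem ee_meas3h (hsuma : S_SUMA2) (hmeas : S_MEAS3) (hfld : S_FLD3) (ε : ℝ) (hε : 0 < ε)
    (n a : ℕ) :
    ∃ (C η : ℝ) (k₀ : ℕ), 0 < C ∧ 0 < η ∧ ∀ k j : ℕ, k₀ ≤ k → j ≤ a * (k + 1) →
      volume (EE 3 ε (1 / 2) n k j) ≤ ENNReal.ofReal (C * (2 : ℝ) ^ (-η * k)) := by
  classical
  have ha0 : (0 : ℝ) ≤ a := Nat.cast_nonneg a
  set δ : ℝ := ε / (4 * (a + 1)) with hδ
  have hδpos : 0 < δ := by positivity
  obtain ⟨C₁, hC₁, hF⟩ := hfld δ hδpos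
  obtain ⟨C₂, hC₂, hV⟩ := hsuma (n + 1) (ε / 4) (by positivity)
  obtain ⟨k₀, hk₀⟩ := exists_nat_ge (4 / ε)
  set E₀ : ℝ := a * δ + 2 + δ + ε / 4 with hE₀
  refine ⟨8 * C₁ * C₂ * 2 ^ E₀, ε / 2, k₀, by positivity, by positivity, ?_⟩
  intro k j hk hj
  have hkε : 4 ≤ k * ε := by
    have h1 : 4 / ε ≤ k := hk₀.trans (by exact_mod_cast hk)
    rwa [div_le_iff₀ hε] at h1
  have hjr : (j : ℝ) ≤ a * (k + 1) := by exact_mod_cast hj
  have hk0 : (0 : ℝ) ≤ k := Nat.cast_nonneg k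
  have hj0 : (0 : ℝ) ≤ j := Nat.cast_nonneg j
  set Y : ℝ := (2 : ℝ) ^ ((j : ℝ) + 1) with hY
  have hY1 : 1 ≤ Y := Real.one_le_rpow one_le_two (by linarith)
  set T : ℝ := (2 : ℝ) ^ ((k : ℝ) + 1) with hT
  have hT1 : 1 ≤ T := Real.one_le_rpow one_le_two (by linarith)
  have hT' : T = (2 : ℝ) ^ (k + 1) := by
    rw [hT, ← Real.rpow_natCast]
    push_cast
    rfl
  have hY' : Y = (2 : ℝ) ^ (j + 1) := by
    rw [hY, ← Real.rpow_natCast]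
    push_cast
    rfl
  set κ : ℝ := (2 : ℝ) ^ (-(k * (1 + ε)) - j / 2) with hκ
  have hκ0 : 0 < κ := Real.rpow_pos_of_pos two_pos _
  have hκT : 8 * κ * T ≤ 1 := by
    have e : 8 * κ * T = (2 : ℝ) ^ (4 - k * ε - j / 2) := by
      have e8 : (8 : ℝ) = 2 ^ (3 : ℝ) := by norm_num
      rw [hκ, hT, e8, ← Real.rpow_add two_pos, ← Real.rpow_add two_pos]
      congr 1
      ring
    rw [e]
    refine Real.rpow_le_one_of_one_le_of_nonpos one_le_two ?_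
    linarith
  -- the polynomials
  set Ps : Set ℤ[X] := {f | 0 < f.leadingCoeff ∧ ∃ x : ℂ, IsMin 3 f x ∧ (2 : ℝ) ^ k ≤ M f ∧
    M f < 2 ^ (k + 1) ∧ (2 : ℝ) ^ j ≤ dsc x ∧ dsc x < 2 ^ (j + 1)} with hPs
  have hPfin : Ps.Finite := by
    refine (northcott 3 ((2 : ℝ) ^ (k + 1))).subset ?_
    rintro f ⟨_, x, hfx, _, hM2, _, _⟩
    exact ⟨hfx.2.1.le, hM2.le⟩
  set P := hPfin.toFinset with hP
  have hmemP : ∀ f, f ∈ P ↔ f ∈ Ps := fun f => Set.Finite.mem_toFinset hPfin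
  set R : ℤ[X] → Finset ℂ := fun f =>
    (f.map (Int.castRingHom ℂ)).roots.toFinset.filter (fun w => ‖w‖ ≤ n + 1) with hR
  have hmemR : ∀ f ∈ P, ∀ w ∈ R f, IsMin 3 f w ∧ ‖w‖ ≤ n + 1 := by
    intro f hf w hw
    obtain ⟨_, x, hfx, _⟩ := (hmemP f).mp hf
    obtain ⟨h1, h2⟩ := Finset.mem_filter.mp hw
    rw [Multiset.mem_toFinset, mem_roots'] at h1
    refine ⟨⟨hfx.1, hfx.2.1, ?_⟩, h2⟩
    have h3 := h1.2
    rw [IsRoot.def, eval_map] at h3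
    exact h3
  have hcover : EE 3 ε (1 / 2) n k j ⊆ ⋃ f ∈ P, {ξ : ℝ | |ξ| ≤ n ∧ |aeval ξ f| ≤ κ} := by
    rintro ξ ⟨hξ, f, x, hf0, hfx, hM1, hM2, hd1, hd2, hfe⟩
    rw [Set.mem_iUnion₂]
    refine ⟨f, (hmemP f).mpr ⟨hf0, x, hfx, hM1, hM2, hd1, hd2⟩, hξ, hfe.trans ?_⟩
    have h2k : (0 : ℝ) < 2 ^ k := by positivity
    have h2j : (0 : ℝ) < 2 ^ j := by positivity
    have h1 : M f ^ (-1 - ε) ≤ ((2 : ℝ) ^ k) ^ (-1 - ε) :=
      Real.rpow_le_rpow_of_nonpos h2k hM1 (by linarith)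
    have h2 : ((2 : ℝ) ^ j) ^ (1 / 2 : ℝ) ≤ dsc x ^ (1 / 2 : ℝ) :=
      Real.rpow_le_rpow h2j.le hd1 (by norm_num)
    have h3 : κ = ((2 : ℝ) ^ k) ^ (-1 - ε) / ((2 : ℝ) ^ j) ^ (1 / 2 : ℝ) := by
      rw [hκ, ← Real.rpow_natCast, ← Real.rpow_natCast, ← Real.rpow_mul two_pos.le,
        ← Real.rpow_mul two_pos.le, ← Real.rpow_sub two_pos]
      congr 1
      ring
    rw [h3]
    exact div_le_div₀ (by positivity) h1 (by positivity) h2
  refine (measure_mono hcover).trans ((measure_biUnion_finset_le _ _).trans ?_)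
  have hPm : ∀ f ∈ P, volume {ξ : ℝ | |ξ| ≤ n ∧ |aeval ξ f| ≤ κ} ≤
      ENNReal.ofReal (8 * κ * ∑ w ∈ R f, 1 / dv f w) := by
    intro f hf
    obtain ⟨_, x, hfx, _, hM2, _⟩ := (hmemP f).mp hf
    have h8 : 8 * κ * M f ≤ 1 := by
      refine le_trans (mul_le_mul_of_nonneg_left ?_ (by positivity)) hκT
      rw [hT']
      exact hM2.le
    exact hmeas n f x κ hfx hκ0 h8
  refine (Finset.sum_le_sum hPm).trans ?_
  have hdvnn : ∀ (f : ℤ[X]) (w : ℂ), 0 ≤ 1 / dv f w := fun f w => by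
    unfold dv
    positivity
  rw [← ENNReal.ofReal_sum_of_nonneg (fun f _ => mul_nonneg (by positivity)
    (Finset.sum_nonneg fun w _ => hdvnn f w)), ← Finset.mul_sum]
  refine ENNReal.ofReal_le_ofReal ?_
  -- the double sum
  set S := P.sigma R with hS
  have hsum : ∑ f ∈ P, ∑ w ∈ R f, 1 / dv f w = ∑ p ∈ S, 1 / dv p.1 p.2 := by
    rw [hS, Finset.sum_sigma]
  set fl : (Σ _ : ℤ[X], ℂ) → IntermediateField ℚ ℂ :=
    fun p => IntermediateField.adjoin ℚ ({p.2} : Set ℂ) with hfl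
  set 𝒦 := S.image fl with h𝒦
  have hSp : ∀ p ∈ S, p.1 ∈ P ∧ IsMin 3 p.1 p.2 ∧ ‖p.2‖ ≤ n + 1 := by
    intro p hp
    obtain ⟨h1, h2⟩ := Finset.mem_sigma.mp hp
    exact ⟨h1, hmemR p.1 h1 p.2 h2⟩
  have h𝒦mem : ∀ K ∈ 𝒦, ∃ _ : NumberField K, Module.finrank ℚ K = 3 ∧
      |(NumberField.discr K : ℝ)| ≤ Y ∧ (2 : ℝ) ^ j ≤ |(NumberField.discr K : ℝ)| := by
    intro K hK
    obtain ⟨p, hp, rfl⟩ := Finset.mem_image.mp hK
    obtain ⟨hpP, hpm, _⟩ := hSp p hp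
    have hnf := mi_numberField (by norm_num) hpm
    refine ⟨hnf, mi_finrank (by norm_num) hpm, ?_⟩
    obtain ⟨_, x, hfx, _, _, hd1, hd2⟩ := (hmemP p.1).mp hpP
    have hdeq := dsc_eq p.2
    have hc := mi_dsc_conj (by norm_num) hfx hpm
    show |(NumberField.discr (IntermediateField.adjoin ℚ ({p.2} : Set ℂ)) : ℝ)| ≤ Y ∧
      (2 : ℝ) ^ j ≤ |(NumberField.discr (IntermediateField.adjoin ℚ ({p.2} : Set ℂ)) : ℝ)|
    rw [← hdeq, ← hc, hY']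
    exact ⟨hd2.le, hd1⟩
  have h𝒦card : (𝒦.card : ℝ) ≤ C₁ * Y ^ (1 + δ) := hF Y 𝒦 hY1 fun K hK => by
    obtain ⟨hN, h3, h4, _⟩ := h𝒦mem K hK
    exact ⟨hN, h3, h4⟩
  have hinner : ∀ K ∈ 𝒦, ∑ p ∈ S.filter (fun p => fl p = K), 1 / dv p.1 p.2 ≤
      C₂ * T ^ (1 + ε / 4) / (2 : ℝ) ^ ((j : ℝ) / 2) := by
    intro K hK
    obtain ⟨hN, hK3, _, hdj⟩ := h𝒦mem K hK
    have hsq : (2 : ℝ) ^ ((j : ℝ) / 2) ≤ Real.sqrt |(NumberField.discr K : ℝ)| := by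
      have h1 : Real.sqrt ((2 : ℝ) ^ j) = (2 : ℝ) ^ ((j : ℝ) / 2) := by
        rw [Real.sqrt_eq_rpow, ← Real.rpow_natCast, ← Real.rpow_mul two_pos.le]
        congr 1
        ring
      rw [← h1]
      exact Real.sqrt_le_sqrt hdj
    refine le_trans ?_ (div_le_div_of_nonneg_left (by positivity) (by positivity) hsq)
    refine sum_field (n + 1) T _ K (fun σ F f hf => hV K hK3 σ T F f hT1 hf) _ ?_
    intro p hp
    obtain ⟨hpS, hpK⟩ := Finset.mem_filter.mp hp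
    obtain ⟨hpP, hpm, hpn⟩ := hSp p hpS
    obtain ⟨h0, x, hfx, _, hM2, _⟩ := (hmemP p.1).mp hpP
    refine ⟨hpm, h0, ?_, ?_, ?_⟩
    · rw [hT']; exact hM2.le
    · push_cast; exact hpn
    · rw [← hpK]
      exact IntermediateField.mem_adjoin_simple_self ℚ p.2
  have hdouble : ∑ f ∈ P, ∑ w ∈ R f, 1 / dv f w ≤
      (C₁ * Y ^ (1 + δ)) * (C₂ * T ^ (1 + ε / 4) / (2 : ℝ) ^ ((j : ℝ) / 2)) := by
    rw [hsum, ← Finset.sum_fiberwise_of_maps_to (g := fl) (t := 𝒦)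
      (fun p hp => Finset.mem_image_of_mem fl hp)]
    refine (Finset.sum_le_sum hinner).trans ?_
    rw [Finset.sum_const, nsmul_eq_mul]
    exact mul_le_mul_of_nonneg_right h𝒦card (by positivity)
  calc 8 * κ * ∑ f ∈ P, ∑ w ∈ R f, 1 / dv f w
      ≤ 8 * κ * ((C₁ * Y ^ (1 + δ)) * (C₂ * T ^ (1 + ε / 4) / (2 : ℝ) ^ ((j : ℝ) / 2))) :=
        mul_le_mul_of_nonneg_left hdouble (by positivity)
    _ = 8 * C₁ * C₂ * 2 ^ ((-(k * (1 + ε)) - j / 2) + (((j : ℝ) + 1) * (1 + δ) +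
        (((k : ℝ) + 1) * (1 + ε / 4) - (j : ℝ) / 2))) := by
        rw [hκ, hY, hT, ← Real.rpow_mul two_pos.le, ← Real.rpow_mul two_pos.le,
          Real.rpow_add two_pos (-(k * (1 + ε)) - j / 2),
          Real.rpow_add two_pos (((j : ℝ) + 1) * (1 + δ)),
          Real.rpow_sub two_pos (((k : ℝ) + 1) * (1 + ε / 4)) ((j : ℝ) / 2)]
        ring
    _ ≤ 8 * C₁ * C₂ * 2 ^ (E₀ + -(ε / 2) * k) := by
        refine mul_le_mul_of_nonneg_left ?_ (by positivity)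
        refine Real.rpow_le_rpow_of_exponent_le one_le_two ?_
        have e2 : δ * (a + 1) = ε / 4 := by
          rw [hδ]
          field_simp
        have e4 : (j : ℝ) * δ ≤ a * (k + 1) * δ := mul_le_mul_of_nonneg_right hjr hδpos.le
        have e5 : a * k * δ ≤ k * (ε / 4) := by
          rw [← e2]
          nlinarith [mul_nonneg hk0 hδpos.le]
        rw [hE₀]
        nlinarith [e4, e5]
    _ = 8 * C₁ * C₂ * 2 ^ E₀ * 2 ^ (-(ε / 2) * k) := by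
        rw [Real.rpow_add two_pos]
        ring

/-- JOB V2-FIN3H. -/
theorem fin3h (hsuma : S_SUMA2) (hmeas : S_MEAS3) (hfld : S_FLD3) (hdle : S_DLE) : S_FIN3H := by
  intro ε hε
  have h := bc hdle 3 (by norm_num) ε (1 / 2) (ee_meas3h hsuma hmeas hfld ε hε)
  simp only [Real.sqrt_eq_rpow]
  exact h

end Q144.V
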