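import Pool.Agent.Q273.V.Stm2

/-!
# Project V (helper273), job REL: the generators of a cubic field modulo `SL₂(ℤ)` (helper144)
-/

set_option autoImplicit false

namespace Q144.V

open Q273.V

theorem gen_irr {K : Type} [Field K] [NumberField K] (hK : Module.finrank ℚ K = 3) {x : K}
    (hx : IntermediateField.adjoin ℚ {x} = ⊤) {a b : ℤ} (hb : b ≠ 0) : (b : K) * x ≠ a := by
  intro h
  have hb' : (b : K) ≠ 0 := by exact_mod_cast hb
  have h1 : x = algebraMap ℚ K ((a : ℚ) / b) := by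
    rw [map_div₀, map_intCast, map_intCast, eq_div_iff hb', mul_comm]
    exact h
  have h2 : x ∈ (⊥ : IntermediateField ℚ K) := by
    rw [IntermediateField.mem_bot]
    exact ⟨_, h1.symm⟩
  rw [IntermediateField.adjoin_simple_eq_bot_iff.2 h2, IntermediateField.bot_eq_top_iff_finrank_eq_one, hK] at hx
  norm_num at hx

/-- the primitive relation -/
theorem relation {K : Type} [Field K] [NumberField K] (hK : Module.finrank ℚ K = 3) (x z : K) :
    ∃ c0 c1 c2 c3 : ℤ, (c0 : K) + c1 * x + c2 * z + c3 * (x * z) = 0 ∧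
      ∀ d : ℤ, d ∣ c0 → d ∣ c1 → d ∣ c2 → d ∣ c3 → IsUnit d := by
  have h1 : ¬ LinearIndependent ℚ (![1, x, z, x * z] : Fin 4 → K) := by
    intro h
    have := h.fintype_card_le_finrank
    rw [hK, Fintype.card_fin] at this
    norm_num at this
  have h2 : ¬ LinearIndependent ℤ (![1, x, z, x * z] : Fin 4 → K) := by
    intro h
    exact h1 ((LinearIndependent.iff_fractionRing ℤ ℚ).1 h)
  rw [Fintype.not_linearIndependent_iff] at h2
  obtain ⟨g, hg, i, hi⟩ := h2
  obtain ⟨g', hg1, hg2⟩ := Finset.extract_gcd g (s := Finset.univ) Finset.univ_nonempty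
  have hd : Finset.univ.gcd g ≠ 0 := by
    intro h0
    have := hg1 i (Finset.mem_univ i)
    rw [h0, zero_mul] at this
    exact hi this
  refine ⟨g' 0, g' 1, g' 2, g' 3, ?_, ?_⟩
  · have h3 : ((Finset.univ.gcd g : ℤ) : K) * ((g' 0 : K) + g' 1 * x + g' 2 * z + g' 3 * (x * z)) = 0 := by
      rw [Fin.sum_univ_four] at hg
      simp only [Matrix.cons_val_zero, Matrix.cons_val_one, Matrix.cons_val, zsmul_eq_mul] at hg
      rw [hg1 0 (Finset.mem_univ _), hg1 1 (Finset.mem_univ _), hg1 2 (Finset.mem_univ _),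
        hg1 3 (Finset.mem_univ _)] at hg
      push_cast at hg
      linear_combination hg
    have hd' : ((Finset.univ.gcd g : ℤ) : K) ≠ 0 := by exact_mod_cast hd
    exact (mul_eq_zero.1 h3).resolve_left hd'
  · intro d h0 h1 h2 h3
    have h4 : d ∣ Finset.univ.gcd g' := by
      refine Finset.dvd_gcd fun i _ => ?_
      fin_cases i
      · exact h0
      · exact h1
      · exact h2
      · exact h3
    rw [hg2] at h4
    exact isUnit_of_dvd_one h4

/-- JOB REL. -/
theorem rel : S_REL := by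
  intro K _ _ hK z x hz hx
  obtain ⟨c0, c1, c2, c3, hrel, hgcd⟩ := relation hK x z
  -- `z (c3 x + c2) = - c1 x - c0`
  have hc : ¬ (c3 = 0 ∧ c2 = 0) := by
    rintro ⟨h3, h2⟩
    rw [h3, h2] at hrel
    simp only [Int.cast_zero, zero_mul, add_zero] at hrel
    by_cases h1 : c1 = 0
    · rw [h1] at hrel
      simp only [Int.cast_zero, zero_mul, add_zero] at hrel
      have h0 : c0 = 0 := by exact_mod_cast hrel
      have := hgcd 2 (by rw [h0]; exact dvd_zero _) (by rw [h1]; exact dvd_zero _)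
        (by rw [h2]; exact dvd_zero _) (by rw [h3]; exact dvd_zero _)
      rw [Int.isUnit_iff] at this
      omega
    · apply gen_irr hK hx (a := -c0) h1
      push_cast
      linear_combination hrel
  have hk : (Int.gcd c3 c2 : ℤ) ≠ 0 := by
    intro h
    have h1 : Int.gcd c3 c2 = 0 := by exact_mod_cast h
    rw [Int.gcd_eq_zero_iff] at h1
    exact hc h1
  obtain ⟨k, hkd⟩ : ∃ k : ℤ, k = (Int.gcd c3 c2 : ℤ) := ⟨_, rfl⟩
  rw [← hkd] at hk
  obtain ⟨r, hr⟩ : ∃ r : ℤ, c3 = k * r := by rw [hkd]; exact Int.gcd_dvd_left ..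
  obtain ⟨t, ht⟩ : ∃ t : ℤ, c2 = k * t := by rw [hkd]; exact Int.gcd_dvd_right ..
  obtain ⟨p, q, hpq⟩ : ∃ p q : ℤ, p * t - q * r = 1 := by
    have h1 := Int.gcd_eq_gcd_ab c3 c2
    rw [← hkd] at h1
    refine ⟨Int.gcdB c3 c2, -Int.gcdA c3 c2, ?_⟩
    have h2 : k * (Int.gcdB c3 c2 * t - -Int.gcdA c3 c2 * r) = k * 1 := by
      linear_combination (-Int.gcdA c3 c2) * hr - (Int.gcdB c3 c2) * ht - h1
    exact mul_left_cancel₀ hk h2
  have hden : (r : K) * x + t ≠ 0 := by
    intro h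
    by_cases hr0 : r = 0
    · rw [hr0] at h hpq
      simp only [Int.cast_zero, zero_mul, zero_add] at h
      have ht0 : t = 0 := by exact_mod_cast h
      rw [ht0] at hpq
      simp at hpq
    · apply gen_irr hK hx (a := -t) hr0
      push_cast
      linear_combination h
  -- `k z = α x' + β₀`
  obtain ⟨α, hα⟩ : ∃ α : ℤ, α = -c1 * t + c0 * r := ⟨_, rfl⟩
  obtain ⟨β, hβ⟩ : ∃ β : ℤ, β = -p * c0 + q * c1 := ⟨_, rfl⟩
  have hc1 : c1 = -(α * p + β * r) := by
    rw [hα, hβ]
    linear_combination (-c1) * hpq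
  have hc0 : c0 = -(α * q + β * t) := by
    rw [hα, hβ]
    linear_combination (-c0) * hpq
  obtain ⟨y, hy⟩ : ∃ y : K, y = ((p : K) * x + q) / (r * x + t) := ⟨_, rfl⟩
  have hy' : y * (r * x + t) = p * x + q := by
    rw [hy, div_mul_cancel₀ _ hden]
  have hkz : (k : K) * z = α * y + β := by
    have h1 : ((k : K) * z) * (r * x + t) = (α * y + β) * (r * x + t) := by
      have e0 : (c0 : K) = -(α * q + β * t) := by exact_mod_cast hc0
      have e1 : (c1 : K) = -(α * p + β * r) := by exact_mod_cast hc1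
      have e2 : (c2 : K) = k * t := by exact_mod_cast ht
      have e3 : (c3 : K) = k * r := by exact_mod_cast hr
      rw [e0, e1, e2, e3] at hrel
      linear_combination hrel - (α : K) * hy'
    exact mul_right_cancel₀ hden h1
  have hα0 : α ≠ 0 := by
    intro h
    rw [h, Int.cast_zero, zero_mul, zero_add] at hkz
    exact gen_irr hK hz hk hkz
  have hun : ∀ d : ℤ, d ∣ α → d ∣ β → d ∣ k → IsUnit d := by
    intro d h1 h2 h3
    refine hgcd d ?_ ?_ ?_ ?_
    · rw [hc0]
      exact (dvd_add (h1.mul_right _) (h2.mul_right _)).neg_right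
    · rw [hc1]
      exact (dvd_add (h1.mul_right _) (h2.mul_right _)).neg_right
    · rw [ht]
      exact h3.mul_right _
    · rw [hr]
      exact h3.mul_right _
  -- sign
  obtain ⟨a, b, δ, ha, hδ, hz', hun'⟩ : ∃ a b δ : ℤ, 1 ≤ a ∧ δ ≠ 0 ∧ (δ : K) * z = a * y + b ∧
      ∀ d : ℤ, d ∣ a → d ∣ b → d ∣ δ → IsUnit d := by
    rcases lt_or_gt_of_ne hα0 with h | h
    · refine ⟨-α, -β, -k, by omega, neg_ne_zero.2 hk, ?_, fun d h1 h2 h3 =>
        hun d ((dvd_neg).1 h1) ((dvd_neg).1 h2) ((dvd_neg).1 h3)⟩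
      push_cast
      linear_combination -hkz
    · exact ⟨α, β, k, by omega, hk, hkz, hun⟩
  -- reduction of `b` modulo `a`
  have ha0 : a ≠ 0 := by omega
  obtain ⟨m, hm⟩ : ∃ m : ℤ, m = b / a := ⟨_, rfl⟩
  have hbm : b = b % a + a * m := by rw [hm]; exact (Int.emod_add_mul_ediv b a).symm
  have haK : (a : K) ≠ 0 := by exact_mod_cast ha0
  refine ⟨a, b % a, δ, ha, hδ, Int.emod_nonneg b ha0, Int.emod_lt_of_pos b (by omega), ?_,
    p + m * r, q + m * t, r, t, ?_, hden, ?_⟩
  · have h1 := hun' (Int.gcd (Int.gcd a (b % a)) δ : ℤ)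
      ((Int.gcd_dvd_left ..).trans (Int.gcd_dvd_left ..))
      (by
        rw [hbm]
        refine dvd_add ?_ (((Int.gcd_dvd_left ..).trans (Int.gcd_dvd_left ..)).mul_right _)
        have h2 : b % a = (b % a + a * m) % a := by rw [← hbm]
        rw [← h2]
        exact (Int.gcd_dvd_left ..).trans (Int.gcd_dvd_right ..))
      (Int.gcd_dvd_right ..)
    rw [Int.isUnit_iff] at h1
    omega
  · linear_combination hpq
  · have hbK : (b : K) = ((b % a : ℤ) : K) + a * m := by exact_mod_cast hbm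
    rw [eq_div_iff hden, div_mul_eq_mul_div, div_eq_iff haK, hz', hbK]
    push_cast
    linear_combination (a : K) * hy'

end Q144.V
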